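import Mathlib
import Pool.Agent.W761.CP.Defs

/-!
# The inner operator has a gap
-/

set_option autoImplicit false

open MeasureTheory
open scoped ENNReal FourierTransform SchwartzMap InnerProductSpace

namespace Pool.Agent.W768.CP
open Pool.Agent.Helper209.CX (Ed L2d InH1 dirichlet IsHu)
open Pool.Agent.W761.CP

theorem norm_sq_eq {d : ℕ} (u : L2d d) : ‖u‖ ^ 2 = ∫ x, ‖u x‖ ^ 2 := by
  have h1 : (⟪u, u⟫_ℂ).re = ‖u‖ ^ 2 := by
    rw [inner_self_eq_norm_sq_to_K]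
    norm_cast
  rw [← h1, L2.inner_def]
  have h2 : ∀ x, ⟪u x, u x⟫_ℂ = ((‖u x‖ ^ 2 : ℝ) : ℂ) := fun x => by
    rw [inner_self_eq_norm_sq_to_K]; norm_cast
  simp only [h2]
  rw [integral_complex_ofReal, Complex.ofReal_re]

theorem integrable_sq {d : ℕ} (u : L2d d) : Integrable (fun x => ‖u x‖ ^ 2) volume := by
  have := (Lp.memLp u).integrable_norm_rpow (by norm_num) (by norm_num)
  simpa using this

theorem measurableSet_Gd (d : ℕ) : MeasurableSet (Gd d) := by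
  have : Gd d = ⋂ k, {x : Ed d | 0 ≤ x k ∧ x k ≤ 1} := by
    ext x; simp [Gd]
  rw [this]
  refine MeasurableSet.iInter fun k => ?_
  have hm : Measurable fun x : Ed d => x k := (EuclideanSpace.proj k : Ed d →L[ℝ] ℝ).continuous.measurable
  exact (measurableSet_le measurable_const hm).inter (measurableSet_le hm measurable_const)

theorem in1 : S_GAP → S_SUB → S_SYM → S_E0 → S_POT → S_IN1 := by
  intro hGAP hSUB hSYM hE0 hPOT d W M χ b φ a h C m Q hd hW hM hL hh hC hm hQ hCM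
  have hM0 : 0 < M := by linarith
  obtain ⟨-, hFB, -, -, -, -⟩ := hPOT d W M χ b φ a hW hM0 hL
  obtain ⟨H, hH, -⟩ := hSUB d h (Vin W M χ) hFB
  have hre : ∀ x, 0 ≤ (Vin W M χ x).re ∧ (Vin W M χ x).im = 0 ∧
      ‖Vin W M χ x‖ = (Vin W M χ x).re := by
    intro x
    unfold Vin
    split_ifs
    · refine ⟨by simpa using hW.nonneg x, by simp, ?_⟩
      simp only [Complex.norm_real, Complex.ofReal_re, Real.norm_eq_abs]
      exact abs_of_nonneg (hW.nonneg x)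
    · refine ⟨by simpa using hM0.le, by simp, ?_⟩
      simp only [Complex.norm_real, Complex.ofReal_re, Real.norm_eq_abs]
      exact abs_of_pos hM0
  have hout : ∀ x, x ∉ Gd d → (Vin W M χ x).re = M := by
    intro x hx
    have : χ x = 0 := by
      by_contra h0
      exact hx (hL.χG x h0)
    unfold Vin
    simp [this]
  have hsym : ∀ u f v g : L2d d, (u, f) ∈ H → (v, g) ∈ H → ⟪v, f⟫_ℂ = ⟪g, u⟫_ℂ := by
    intro u f v g hu hv
    exact (hSYM d h (Vin W M χ) hFB u f v g ((hH u f).1 hu) ((hH v g).1 hv)).2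
      (fun x => (hre x).2.1)
  -- the key estimate
  have key : ∀ u f : L2d d, Q u = 0 → (u, f) ∈ H → (⟪u, f⟫_ℂ).re ≤ 2 * (M / 6) * ‖u‖ ^ 2 →
      u = 0 := by
    intro u f hQu huf hle
    obtain ⟨g, hg, -⟩ := (hH u f).1 huf
    obtain ⟨hE, -⟩ := hE0 d h (Vin W M χ) u f g hFB ((hH u f).1 huf) hg
    have hpoi := hQ.poi u g hg
    rw [hQu, norm_zero] at hpoi
    obtain ⟨_, C', _, hC'⟩ := hFB
    have hint : Integrable (fun x => (Vin W M χ x).re * ‖u x‖ ^ 2) volume := by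
      have := (hC' u g hg).1
      refine this.congr (Filter.Eventually.of_forall fun x => ?_)
      simp only [(hre x).2.2]
    have hnn : ∀ x, 0 ≤ (Vin W M χ x).re * ‖u x‖ ^ 2 := fun x =>
      mul_nonneg (hre x).1 (by positivity)
    have hG := measurableSet_Gd d
    have hsq := integrable_sq u
    have h1 : ‖u‖ ^ 2 = (∫ x in Gd d, ‖u x‖ ^ 2) + ∫ x in (Gd d)ᶜ, ‖u x‖ ^ 2 := by
      rw [norm_sq_eq, integral_add_compl hG hsq]
    have h2 : M * ∫ x in (Gd d)ᶜ, ‖u x‖ ^ 2 ≤ ∫ x, (Vin W M χ x).re * ‖u x‖ ^ 2 := by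
      have e1 : M * ∫ x in (Gd d)ᶜ, ‖u x‖ ^ 2 =
          ∫ x in (Gd d)ᶜ, (Vin W M χ x).re * ‖u x‖ ^ 2 := by
        rw [← integral_const_mul]
        refine setIntegral_congr_fun hG.compl fun x hx => ?_
        simp only [hout x hx]
      rw [e1]
      exact setIntegral_le_integral hint (Filter.Eventually.of_forall hnn)
    have hS : 0 ≤ ∑ k, ‖g k‖ ^ 2 := Finset.sum_nonneg fun _ _ => by positivity
    have hm0 : (0 : ℝ) < m := by exact_mod_cast hm
    have h3 : M * (C / (m : ℝ) ^ 2 * ∑ k, ‖g k‖ ^ 2) ≤ h ^ 2 * ∑ k, ‖g k‖ ^ 2 := by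
      rw [← mul_assoc]
      refine mul_le_mul_of_nonneg_right ?_ hS
      rw [← mul_div_assoc, div_le_iff₀ (by positivity)]
      nlinarith [mul_pos hC hM0]
    have h4 : M * ‖u‖ ^ 2 ≤ 2 * (M / 6) * ‖u‖ ^ 2 := by
      calc M * ‖u‖ ^ 2 = M * (∫ x in Gd d, ‖u x‖ ^ 2) + M * ∫ x in (Gd d)ᶜ, ‖u x‖ ^ 2 := by
            rw [h1]; ring
        _ ≤ M * (C / (m : ℝ) ^ 2 * ∑ k, ‖g k‖ ^ 2) + ∫ x, (Vin W M χ x).re * ‖u x‖ ^ 2 := by
            refine add_le_add (mul_le_mul_of_nonneg_left ?_ hM0.le) h2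
            linarith
        _ ≤ h ^ 2 * (∑ k, ‖g k‖ ^ 2) + ∫ x, (Vin W M χ x).re * ‖u x‖ ^ 2 := by linarith
        _ = (⟪u, f⟫_ℂ).re := hE
        _ ≤ _ := hle
    have h5 : ‖u‖ ^ 2 ≤ 0 := by nlinarith [sq_nonneg ‖u‖]
    have h6 : ‖u‖ = 0 := by
      have := sq_nonneg ‖u‖
      exact pow_eq_zero_iff (two_ne_zero) |>.1 (le_antisymm h5 this)
    exact norm_eq_zero.1 h6
  have hcount : ∀ (n : ℕ) (w : Fin n → L2d d), LinearIndependent ℂ w →
      (∀ c : Fin n → ℂ, ∃ f : L2d d, (∑ i, c i • w i, f) ∈ H ∧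
        (⟪∑ i, c i • w i, f⟫_ℂ).re ≤ 2 * (M / 6) * ‖∑ i, c i • w i‖ ^ 2) → n ≤ m ^ d := by
    intro n w hw hc
    by_contra hn
    push Not at hn
    have hfin := hQ.fin
    let L : (Fin n → ℂ) →ₗ[ℂ] L2d d := Fintype.linearCombination ℂ w
    let L' : (Fin n → ℂ) →ₗ[ℂ] LinearMap.range (Q : L2d d →ₗ[ℂ] L2d d) :=
      (Q : L2d d →ₗ[ℂ] L2d d).rangeRestrict ∘ₗ L
    have hlt : Module.finrank ℂ (LinearMap.range (Q : L2d d →ₗ[ℂ] L2d d)) <
        Module.finrank ℂ (Fin n → ℂ) := by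
      rw [Module.finrank_fin_fun]
      exact lt_of_le_of_lt hQ.rank hn
    have hker : LinearMap.ker L' ≠ ⊥ := LinearMap.ker_ne_bot_of_finrank_lt hlt
    obtain ⟨c, hcL, hc0⟩ := (Submodule.ne_bot_iff _).1 hker
    have hQu : Q (∑ i, c i • w i) = 0 := by
      have h0 : L' c = 0 := hcL
      have h1 : ((L' c : LinearMap.range (Q : L2d d →ₗ[ℂ] L2d d)) : L2d d) = 0 := by
        rw [h0]; rfl
      have h2 : ((L' c : LinearMap.range (Q : L2d d →ₗ[ℂ] L2d d)) : L2d d) =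
          Q (∑ i, c i • w i) := by
        simp [L', L, Fintype.linearCombination_apply]
      rw [← h2, h1]
    obtain ⟨f, hf, hle⟩ := hc c
    have hu0 := key _ f hQu hf hle
    apply hc0
    have := Fintype.linearIndependent_iff.1 hw c hu0
    funext i
    exact this i
  obtain ⟨l, hl1, hl2, hl3⟩ := hGAP (L2d d) H (m ^ d) (M / 12) (M / 6) (by linarith)
    (by linarith) hsym hcount
  refine ⟨l, hl1, hl2, ?_⟩
  intro v f hv
  have := hl3 v f ((hH _ _).2 hv)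
  have e : (M / 6 - M / 12) / (8 * (((m ^ d : ℕ) : ℝ) + 1) * (((m ^ d : ℕ) : ℝ) + 2)) =
      (M / 12) / (8 * ((m : ℝ) ^ d + 1) * ((m : ℝ) ^ d + 2)) := by
    push_cast
    congr 1
    ring
  rw [← e]
  exact this

end Pool.Agent.W768.CP
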